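import Pool.Agent.Helper78.WK3.StA

/-!
# Project WK3 (MP_3c9520_nt), module KS3: step of the induction for the kernel of `ev3`
-/

set_option autoImplicit false

open Pool.Agent.Helper78.WK3 Pool.Agent.Helper78.W3 Pool.Agent.Helper14.W3 Pool.Agent.Helper14.CV

namespace Pool.Agent.Helper76.WK3

/-- average over the translations by thirds -/
private noncomputable def M1 (x : ℤ → ℤ → ℂ) : ℤ → ℤ → ℂ := (1 / 3 : ℂ) • (x + act 3 1 0 3 x + act 3 2 0 3 x)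

/-- average over the lower unipotent matrices -/
private noncomputable def M2 (n : ℕ) (x : ℤ → ℤ → ℂ) : ℤ → ℤ → ℂ :=
  (1 / 3 : ℂ) • (x + act 1 0 (3 ^ (n - 1)) 1 x + act 1 0 (2 * 3 ^ (n - 1)) 1 x)

private lemma dt1 : (3 : ℤ) * 3 - 1 * 0 ≠ 0 := by norm_num
private lemma dt2 : (3 : ℤ) * 3 - 2 * 0 ≠ 0 := by norm_num
private lemma ds1 (n : ℕ) : (1 : ℤ) * 1 - 0 * 3 ^ (n - 1) ≠ 0 := by norm_num
private lemma ds2 (n : ℕ) : (1 : ℤ) * 1 - 0 * (2 * 3 ^ (n - 1)) ≠ 0 := by norm_num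
private lemma dx : (-1 : ℤ) * 1 - 0 * 0 ≠ 0 := by norm_num
private lemma dw (n : ℕ) : (0 : ℤ) * 0 - (-1) * 3 ^ n ≠ 0 := by
  have : (3 : ℤ) ^ n ≠ 0 := pow_ne_zero _ three_ne_zero
  intro h
  apply this
  linarith

private lemma M1_congr {x y : ℤ → ℤ → ℂ} (h : EqC x y) : EqC (M1 x) (M1 y) :=
  ((h.add (h.act dt1)).add (h.act dt2)).smul (1 / 3 : ℂ)

private lemma M2_congr (n : ℕ) {x y : ℤ → ℤ → ℂ} (h : EqC x y) : EqC (M2 n x) (M2 n y) :=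
  ((h.add (h.act (ds1 n))).add (h.act (ds2 n))).smul (1 / 3 : ℂ)

private lemma M1_sub (x y : ℤ → ℤ → ℂ) : M1 (x - y) = M1 x - M1 y := by
  unfold M1
  rw [act_sub, act_sub, ← smul_sub]
  congr 1
  abel

private lemma M2_sub (n : ℕ) (x y : ℤ → ℤ → ℂ) : M2 n (x - y) = M2 n x - M2 n y := by
  unfold M2
  rw [act_sub, act_sub, ← smul_sub]
  congr 1
  abel

private lemma M1_neg (x : ℤ → ℤ → ℂ) : M1 (-x) = -M1 x := by
  unfold M1
  rw [act_neg, act_neg, ← smul_neg]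
  congr 1
  abel

private lemma M2_neg (n : ℕ) (x : ℤ → ℤ → ℂ) : M2 n (-x) = -M2 n x := by
  unfold M2
  rw [act_neg, act_neg, ← smul_neg]
  congr 1
  abel

private lemma M2_zero (n : ℕ) : M2 n 0 = 0 := by
  have h := M2_sub n 0 0
  rwa [sub_self, sub_self] at h

/-- `1/3 (a + b + c)` -/
private lemma third {a b c a' b' c' : ℤ → ℤ → ℂ} (h1 : EqC a a') (h2 : EqC b b') (h3 : EqC c c') :
    EqC ((1 / 3 : ℂ) • (a + b + c)) ((1 / 3 : ℂ) • (a' + b' + c')) := ((h1.add h2).add h3).smul _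

private lemma third' {a b c a' b' c' : ℤ → ℤ → ℂ} (h1 : EqC a a') (h2 : EqC b c') (h3 : EqC c b') :
    EqC ((1 / 3 : ℂ) • (a + b + c)) ((1 / 3 : ℂ) • (a' + b' + c')) := by
  have h := third h1 h2 h3
  rwa [show a' + c' + b' = a' + b' + c' by abel] at h

section rel

variable (hCom : S3Com) {n : ℕ} (hn : 3 ≤ n) {x : ℤ → ℤ → ℂ} (hx : Sym3 0 n x)

include hCom hn hx

private lemma rt1 : EqC (act 3 (-1) 0 3 x) (act 3 2 0 3 x) := by
  have h := (hCom n x hn hx).2.2.2.2.2.2.2.2.2.2.2.2.1 (-1)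
  rw [show (-1 : ℤ) + 3 = 2 by norm_num] at h
  exact h.symm

private lemma rt2 : EqC (act 3 (-2) 0 3 x) (act 3 1 0 3 x) := by
  have h := (hCom n x hn hx).2.2.2.2.2.2.2.2.2.2.2.2.1 (-2)
  rw [show (-2 : ℤ) + 3 = 1 by norm_num] at h
  exact h.symm

private lemma rs1 : EqC (act 1 0 (-1 * 3 ^ (n - 1)) 1 x) (act 1 0 (2 * 3 ^ (n - 1)) 1 x) := by
  have h := (hCom n x hn hx).2.2.2.2.2.2.2.2.2.2.2.2.2 (-1)
  rw [show (-1 : ℤ) + 3 = 2 by norm_num] at h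
  exact h.symm

private lemma rs2 : EqC (act 1 0 (-2 * 3 ^ (n - 1)) 1 x) (act 1 0 (3 ^ (n - 1)) 1 x) := by
  have h := (hCom n x hn hx).2.2.2.2.2.2.2.2.2.2.2.2.2 (-2)
  rw [show (-2 : ℤ) + 3 = 1 by norm_num, one_mul] at h
  exact h.symm

/-- `t M1 = M1` -/
private lemma tM1 : EqC (act 3 1 0 3 (M1 x)) (M1 x) := by
  have c := hCom n x hn hx
  have h : EqC ((1 / 3 : ℂ) • (act 3 1 0 3 x + act 3 1 0 3 (act 3 1 0 3 x) + act 3 1 0 3 (act 3 2 0 3 x)))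
      ((1 / 3 : ℂ) • (act 3 1 0 3 x + act 3 2 0 3 x + x)) := third (EqC.refl _) c.1 c.2.1
  rw [show act 3 1 0 3 x + act 3 2 0 3 x + x = x + act 3 1 0 3 x + act 3 2 0 3 x by abel] at h
  exact h

/-- `σ M2 = M2` -/
private lemma sM2 : EqC (act 1 0 (3 ^ (n - 1)) 1 (M2 n x)) (M2 n x) := by
  have c := hCom n x hn hx
  have h : EqC ((1 / 3 : ℂ) • (act 1 0 (3 ^ (n - 1)) 1 x + act 1 0 (3 ^ (n - 1)) 1 (act 1 0 (3 ^ (n - 1)) 1 x) +
      act 1 0 (3 ^ (n - 1)) 1 (act 1 0 (2 * 3 ^ (n - 1)) 1 x)))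
      ((1 / 3 : ℂ) • (act 1 0 (3 ^ (n - 1)) 1 x + act 1 0 (2 * 3 ^ (n - 1)) 1 x + x)) :=
    third (EqC.refl _) c.2.2.1 c.2.2.2.1
  rw [show act 1 0 (3 ^ (n - 1)) 1 x + act 1 0 (2 * 3 ^ (n - 1)) 1 x + x =
    x + act 1 0 (3 ^ (n - 1)) 1 x + act 1 0 (2 * 3 ^ (n - 1)) 1 x by abel] at h
  exact h

/-- `W M1 = M2 W` -/
private lemma WM1 : EqC (act 0 (-1) (3 ^ n) 0 (M1 x)) (M2 n (act 0 (-1) (3 ^ n) 0 x)) := by
  have c := (hCom n x hn hx).2.2.2.2.2.2.2.2.1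
  have h1 : EqC (act 1 0 (3 ^ (n - 1)) 1 (act 0 (-1) (3 ^ n) 0 x)) (act 0 (-1) (3 ^ n) 0 (act 3 2 0 3 x)) := by
    have h := c 1
    rw [one_mul] at h
    exact h.trans ((rt1 hCom hn hx).act (dw n))
  have h2 : EqC (act 1 0 (2 * 3 ^ (n - 1)) 1 (act 0 (-1) (3 ^ n) 0 x)) (act 0 (-1) (3 ^ n) 0 (act 3 1 0 3 x)) :=
    (c 2).trans ((rt2 hCom hn hx).act (dw n))
  exact third' (EqC.refl _) h2.symm h1.symm

/-- `W M2 = M1 W` -/
private lemma WM2 : EqC (act 0 (-1) (3 ^ n) 0 (M2 n x)) (M1 (act 0 (-1) (3 ^ n) 0 x)) := by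
  have c := (hCom n x hn hx).2.2.2.2.2.2.2.1
  have h1 : EqC (act 3 1 0 3 (act 0 (-1) (3 ^ n) 0 x)) (act 0 (-1) (3 ^ n) 0 (act 1 0 (2 * 3 ^ (n - 1)) 1 x)) :=
    (c 1).trans ((rs1 hCom hn hx).act (dw n))
  have h2 : EqC (act 3 2 0 3 (act 0 (-1) (3 ^ n) 0 x)) (act 0 (-1) (3 ^ n) 0 (act 1 0 (3 ^ (n - 1)) 1 x)) :=
    (c 2).trans ((rs2 hCom hn hx).act (dw n))
  exact third' (EqC.refl _) h2.symm h1.symm

/-- `* M1 = M1 *` -/
private lemma xM1 : EqC (act (-1) 0 0 1 (M1 x)) (M1 (act (-1) 0 0 1 x)) := by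
  have c := (hCom n x hn hx).2.2.2.2.2.2.2.2.2.1
  have h1 : EqC (act 3 1 0 3 (act (-1) 0 0 1 x)) (act (-1) 0 0 1 (act 3 2 0 3 x)) :=
    (c 1).trans ((rt1 hCom hn hx).act dx)
  have h2 : EqC (act 3 2 0 3 (act (-1) 0 0 1 x)) (act (-1) 0 0 1 (act 3 1 0 3 x)) :=
    (c 2).trans ((rt2 hCom hn hx).act dx)
  exact third' (EqC.refl _) h2.symm h1.symm

/-- `* M2 = M2 *` -/
private lemma xM2 : EqC (act (-1) 0 0 1 (M2 n x)) (M2 n (act (-1) 0 0 1 x)) := by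
  have c := (hCom n x hn hx).2.2.2.2.2.2.2.2.2.2.1
  have h1 : EqC (act 1 0 (3 ^ (n - 1)) 1 (act (-1) 0 0 1 x)) (act (-1) 0 0 1 (act 1 0 (2 * 3 ^ (n - 1)) 1 x)) := by
    have h := c 1
    rw [one_mul] at h
    exact h.trans ((rs1 hCom hn hx).act dx)
  have h2 : EqC (act 1 0 (2 * 3 ^ (n - 1)) 1 (act (-1) 0 0 1 x)) (act (-1) 0 0 1 (act 1 0 (3 ^ (n - 1)) 1 x)) :=
    (c 2).trans ((rs2 hCom hn hx).act dx)
  exact third' (EqC.refl _) h2.symm h1.symm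

/-- `M1 M2 = M2 M1` -/
private lemma M12 : EqC (M1 (M2 n x)) (M2 n (M1 x)) := by
  have c := (hCom n x hn hx).2.2.2.2.2.2.1
  have h1 := c 1 1
  have h2 := c 2 1
  rw [one_mul] at h1 h2
  have h3 := c 1 2
  have h4 := c 2 2
  -- `t (M2 x) ≈ M2 (t x)`
  have k1 : EqC (act 3 1 0 3 (M2 n x)) (M2 n (act 3 1 0 3 x)) := third (EqC.refl _) h1 h3
  have k2 : EqC (act 3 2 0 3 (M2 n x)) (M2 n (act 3 2 0 3 x)) := third (EqC.refl _) h2 h4
  have k3 : EqC (M1 (M2 n x)) ((1 / 3 : ℂ) • (M2 n x + M2 n (act 3 1 0 3 x) + M2 n (act 3 2 0 3 x))) :=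
    third (EqC.refl _) k1 k2
  have e : (1 / 3 : ℂ) • (M2 n x + M2 n (act 3 1 0 3 x) + M2 n (act 3 2 0 3 x)) = M2 n (M1 x) := by
    funext p q
    simp only [M1, M2, act, Pi.add_apply, Pi.smul_apply, smul_eq_mul]
    ring
  rw [e] at k3
  exact k3

/-- `M1 M1 = M1` -/
private lemma M11 (hs : Sym3 0 n (M1 x)) : EqC (M1 (M1 x)) (M1 x) := by
  have h1 := tM1 hCom hn hx
  have h2 : EqC (act 3 2 0 3 (M1 x)) (M1 x) :=
    (hCom n (M1 x) hn hs).1.symm.trans ((h1.act dt1).trans h1)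
  have h3 : EqC (M1 (M1 x)) ((1 / 3 : ℂ) • (M1 x + M1 x + M1 x)) := third (EqC.refl _) h1 h2
  have e : (1 / 3 : ℂ) • (M1 x + M1 x + M1 x) = M1 x := by
    funext p q
    simp only [Pi.smul_apply, Pi.add_apply, smul_eq_mul]
    ring
  rw [e] at h3
  exact h3

/-- `M2 M2 = M2` -/
private lemma M22 (hs : Sym3 0 n (M2 n x)) : EqC (M2 n (M2 n x)) (M2 n x) := by
  have h1 := sM2 hCom hn hx
  have h2 : EqC (act 1 0 (2 * 3 ^ (n - 1)) 1 (M2 n x)) (M2 n x) :=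
    (hCom n (M2 n x) hn hs).2.2.1.symm.trans ((h1.act (ds1 n)).trans h1)
  have h3 : EqC (M2 n (M2 n x)) ((1 / 3 : ℂ) • (M2 n x + M2 n x + M2 n x)) := third (EqC.refl _) h1 h2
  have e : (1 / 3 : ℂ) • (M2 n x + M2 n x + M2 n x) = M2 n x := by
    funext p q
    simp only [Pi.smul_apply, Pi.add_apply, smul_eq_mul]
    ring
  rw [e] at h3
  exact h3

end rel

private lemma avg0 {x y z : ℤ → ℤ → ℂ} (h : EqC ((1 / 3 : ℂ) • (x + y + z)) 0) : EqC (x + y + z) 0 := by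
  have h2 := h.smul (3 : ℂ)
  rw [smul_smul, smul_zero] at h2
  norm_num at h2
  exact h2

private lemma ev_sub' (x y : ℤ → ℤ → ℂ) (i j : ℕ) : ev3 1 (x - y) i j = ev3 1 x i j - ev3 1 y i j := by
  rw [sub_eq_add_neg, ev3_add, ev3_neg]
  ring

/-- `W' W' = 1` -/
private lemma WW (k : ℕ) {x : ℤ → ℤ → ℂ} (hx : Homog x) :
    EqC (act 0 (-1) (3 ^ k) 0 (act 0 (-1) (3 ^ k) 0 x)) x := by
  have h := hx.scale (a := 1) (b := 0) (c := 0) (d := 1) (-(3 : ℤ) ^ k)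
    (neg_ne_zero.2 (pow_ne_zero _ three_ne_zero)) (by norm_num)
  rw [act_one] at h
  have e : act 0 (-1) (3 ^ k) 0 (act 0 (-1) (3 ^ k) 0 x) =
      act (-(3 : ℤ) ^ k * 1) (-(3 : ℤ) ^ k * 0) (-(3 : ℤ) ^ k * 0) (-(3 : ℤ) ^ k * 1) x := by
    rw [act_act]
    congr 1 <;> ring
  rw [e]
  exact h

/-- `* W' = W' *` -/
private lemma SW (k : ℕ) {x : ℤ → ℤ → ℂ} (hx : Homog x) :
    EqC (act (-1) 0 0 1 (act 0 (-1) (3 ^ k) 0 x)) (act 0 (-1) (3 ^ k) 0 (act (-1) 0 0 1 x)) := by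
  have h := hx.scale (a := 0) (b := 1) (c := 3 ^ k) (d := 0) (-1) (by norm_num)
    (by
      have : (3 : ℤ) ^ k ≠ 0 := pow_ne_zero _ three_ne_zero
      intro h
      apply this
      linarith)
  have e1 : act (-1) 0 0 1 (act 0 (-1) (3 ^ k) 0 x) = act (-1 * 0) (-1 * 1) (-1 * 3 ^ k) (-1 * 0) x := by
    rw [act_act]
    congr 1 <;> ring
  have e2 : act 0 (-1) (3 ^ k) 0 (act (-1) 0 0 1 x) = act 0 1 (3 ^ k) 0 x := by
    rw [act_act]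
    congr 1 <;> ring
  rw [e1, e2]
  exact h

theorem hKs3 (hNrm : S3Nrm) (hEv : S3Ev) (hLvl : S3Lvl) (hCom : S3Com) (hNex : Nex3) (hEvU : EvU3) : Ks3 := by
  intro m G hm hG hW hS hev
  have hm2 : 2 ≤ m := by omega
  have hm1 : 2 ≤ m - 1 := by omega
  have sM : ∀ x : ℤ → ℤ → ℂ, Sym3 0 m x → Sym3 0 m (M1 x) := fun x hx =>
    ((hx.add (hNrm m x hm2 hx).2.1).add (hNrm m x hm2 hx).2.2.1).smul _
  have sN : ∀ x : ℤ → ℤ → ℂ, Sym3 0 m x → Sym3 0 m (M2 m x) := fun x hx =>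
    ((hx.add (hNrm m x hm2 hx).2.2.2.1).add (hNrm m x hm2 hx).2.2.2.2.1).smul _
  set A : ℤ → ℤ → ℂ := M1 G with hA
  set B : ℤ → ℤ → ℂ := G - A with hB
  set C : ℤ → ℤ → ℂ := M2 m B with hC
  set E : ℤ → ℤ → ℂ := B - C with hE
  have sA : Sym3 0 m A := sM G hG
  have sB : Sym3 0 m B := hG.sub sA
  have sC : Sym3 0 m C := sN B sB
  have sE : Sym3 0 m E := sB.sub sC
  have tA : EqC (act 3 1 0 3 A) A := tM1 hCom hm hG
  have σC : EqC (act 1 0 (3 ^ (m - 1)) 1 C) C := sM2 hCom hm sB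
  -- averages of `B` and `E`
  have mB : EqC (M1 B) 0 := by
    have h := (EqC.refl (M1 G)).sub (M11 hCom hm hG sA)
    rw [← M1_sub] at h
    rw [← hA, sub_self] at h
    exact h
  have mC : EqC (M1 C) 0 := by
    have h1 := (M12 hCom hm sB).trans (M2_congr m mB)
    rw [M2_zero] at h1
    exact h1
  have mE : EqC (M1 E) 0 := by
    have h := mB.sub mC
    rw [← M1_sub, sub_zero] at h
    exact h
  have nE : EqC (M2 m E) 0 := by
    have h := (EqC.refl (M2 m B)).sub (M22 hCom hm sB sC)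
    rw [← M2_sub] at h
    rw [← hC, sub_self] at h
    exact h
  -- `W`
  have WA : EqC (act 0 (-1) (3 ^ m) 0 A) (-M2 m G) := by
    have h := (WM1 hCom hm hG).trans (M2_congr m hW)
    rw [M2_neg] at h
    exact h
  have WB : EqC (act 0 (-1) (3 ^ m) 0 B) (-(G - M2 m G)) := by
    have h := hW.sub WA
    rw [← act_sub] at h
    rw [show -(G - M2 m G) = -G - -M2 m G by abel]
    exact h
  have WC : EqC (act 0 (-1) (3 ^ m) 0 C) (-(M1 G - M1 (M2 m G))) := by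
    have h := (WM2 hCom hm sB).trans (M1_congr WB)
    rw [M1_neg, M1_sub] at h
    exact h
  have WE : EqC (act 0 (-1) (3 ^ m) 0 E) (-E) := by
    have h := WB.sub WC
    rw [← act_sub] at h
    refine h.trans ?_
    have h2 : EqC (-(G - M2 m G) - -(M1 G - M1 (M2 m G))) (-(G - M2 m G) - -(M1 G - M2 m (M1 G))) :=
      (EqC.refl _).sub ((EqC.refl (M1 G)).sub (M12 hCom hm hG)).neg
    refine h2.trans ?_
    have e : -(G - M2 m G) - -(M1 G - M2 m (M1 G)) = -E := by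
      rw [hE, hC, hB, M2_sub, hA]
      abel
    rw [e]
    exact EqC.refl _
  -- `*`
  have SA : EqC (act (-1) 0 0 1 A) A := (xM1 hCom hm hG).trans (M1_congr hS)
  have SB : EqC (act (-1) 0 0 1 B) B := by
    have h := hS.sub SA
    rw [← act_sub] at h
    exact h
  have SC : EqC (act (-1) 0 0 1 C) C := (xM2 hCom hm sB).trans (M2_congr m SB)
  have SE : EqC (act (-1) 0 0 1 E) E := by
    have h := SB.sub SC
    rw [← act_sub] at h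
    exact h
  -- levels
  have lC : Sym3 0 (m - 1) C := (hLvl m C hm2 sC).1 σC
  have lA : Sym3 0 (m - 1) (act 0 (-1) (3 ^ m) 0 A) := (hLvl m A hm2 sA).2 tA
  set A' : ℤ → ℤ → ℂ := act 0 (-1) (3 ^ m) 0 A with hA'
  have sum : G = A + C + E := by
    rw [hE, hB]
    abel
  have E0 : EqC E 0 := by
    refine hNex m (C - A') E hm (lC.sub lA) ⟨sE, avg0 mE, avg0 nE, WE, SE⟩ (fun i j => ?_)
    have h1 := hev i j
    rw [sum, ev3_add, ev3_add] at h1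
    have h2 := (hEv m A hm2 sA i j).1
    rw [ev_sub', h2]
    linear_combination h1
  have GAC : EqC G (A + C) := by
    have h3 : EqC (A + C + E) (A + C + 0) := (EqC.refl (A + C)).add E0
    rw [← sum, add_zero] at h3
    exact h3
  -- the potential `ω`
  set ω : ℤ → ℤ → ℂ := (1 / 2 : ℂ) • (C - A') with hω
  have lω : Sym3 0 (m - 1) ω := (lC.sub lA).smul _
  have SA' : EqC (act (-1) 0 0 1 A') A' :=
    (hCom m A hm sA).2.2.2.2.2.2.2.2.2.2.2.1.symm.trans (SA.act (dw m))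
  have Sω : EqC (act (-1) 0 0 1 ω) ω := (SC.sub SA').smul (1 / 2 : ℂ)
  have hGω : EqC G (ω - act 0 (-1) (3 ^ m) 0 ω) := by
    have WW' : EqC (act 0 (-1) (3 ^ m) 0 A') A := (hCom m A hm sA).2.2.2.2.1
    have h1 : EqC (act 0 (-1) (3 ^ m) 0 ω) ((1 / 2 : ℂ) • (act 0 (-1) (3 ^ m) 0 C - A)) :=
      ((EqC.refl (act 0 (-1) (3 ^ m) 0 C)).sub WW').smul (1 / 2 : ℂ)
    have h2 : EqC (ω - act 0 (-1) (3 ^ m) 0 ω) (ω - (1 / 2 : ℂ) • (act 0 (-1) (3 ^ m) 0 C - A)) :=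
      (EqC.refl ω).sub h1
    have h3 : ω - (1 / 2 : ℂ) • (act 0 (-1) (3 ^ m) 0 C - A) =
        (1 / 2 : ℂ) • ((A + C) - act 0 (-1) (3 ^ m) 0 (A + C)) := by
      rw [hω, act_add, ← hA', ← smul_sub]
      congr 1
      abel
    have h4 : EqC ((1 / 2 : ℂ) • (G - act 0 (-1) (3 ^ m) 0 G)) ((1 / 2 : ℂ) • ((A + C) - act 0 (-1) (3 ^ m) 0 (A + C))) :=
      (GAC.sub (GAC.act (dw m))).smul (1 / 2 : ℂ)
    have h5 : EqC ((1 / 2 : ℂ) • (G - act 0 (-1) (3 ^ m) 0 G)) ((1 / 2 : ℂ) • (G - -G)) :=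
      ((EqC.refl G).sub hW).smul (1 / 2 : ℂ)
    have h6 : (1 / 2 : ℂ) • (G - -G) = G := by
      rw [sub_neg_eq_add, ← two_smul ℂ G, smul_smul]
      norm_num
    rw [h6] at h5
    rw [h3] at h2
    exact h5.symm.trans (h4.trans h2.symm)
  set T : ℤ → ℤ → ℂ := act 0 (-1) (3 ^ (m - 1)) 0 ω with hT
  have lT : Sym3 0 (m - 1) T := (hNrm (m - 1) ω hm1 lω).1
  have uT : act 3 0 0 1 T = act 0 (-1) (3 ^ m) 0 ω := by
    rw [hT, act_act]
    have e : (3 : ℤ) ^ (m - 1) * 3 + 0 * 0 = 3 ^ m := by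
      rw [← pow_succ, Nat.sub_add_cancel (by omega : 1 ≤ m)]
      ring
    rw [e]
    congr 1
  have WT' : EqC (act 0 (-1) (3 ^ (m - 1)) 0 T) ω := WW (m - 1) lω.1
  have ST : EqC (act (-1) 0 0 1 T) T := (SW (m - 1) lω.1).trans (Sω.act (dw (m - 1)))
  have hfin : EqC G ((ω - T) + (act 3 0 0 1 (-T) - (-T))) := by
    refine hGω.trans (EqC.of_eq fun p q _ => ?_)
    rw [act_neg, uT]
    simp only [Pi.add_apply, Pi.sub_apply, Pi.neg_apply]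
    ring
  refine ⟨ω - T, -T, lω.sub lT, lT.neg, ?_, ?_, fun i j => ?_, hfin⟩
  · rw [act_sub]
    refine ((EqC.refl (act 0 (-1) (3 ^ (m - 1)) 0 ω)).sub WT').trans (EqC.of_eq fun p q _ => ?_)
    simp only [Pi.sub_apply, Pi.neg_apply, ← hT]
    ring
  · rw [act_sub]
    exact Sω.sub ST
  · have h1 := ev3_congr 1 hfin i j
    have h2 := ev_sub' (act 3 0 0 1 (-T)) (-T) i j
    rw [(hEvU ℂ _ (m - 1) (-T) lT.neg).2 i j, sub_self] at h2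
    rw [hev, ev3_add, h2, add_zero] at h1
    exact h1.symm

end Pool.Agent.Helper76.WK3
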